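import Pool.Agent.U152.FS.Thy

/-!
# Semisimplicity of Frobenius on top cohomology after reduction: congruences of ranks suffice

`FrobData r` describes the smooth connected projective varieties `X` over the algebraic numbers, the
dimension `d (X)` of the top cohomology of the structure sheaf, the stable rank of Frobenius on it
for the reduction modulo a maximal ideal `s` of the ring of algebraic integers, an elliptic curve `E`
with a point of order `r`, and the quotient `cyc X = (X^r × E) / (ℤ/r)` by the cyclic permutations
and the translation, for an odd prime number `r`.

Theorem.  The following are equivalent: (Families) for every finite family of varieties there are `s`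
of arbitrarily large characteristic at which Frobenius is semisimple on the top cohomology of all of
them; (Congruences) for every finite family there are `s` of arbitrarily large characteristic at which
the stable ranks are CONGRUENT to the dimensions modulo `r`.  They imply Q1 over the algebraic numbers.
-/

namespace Pool.Agent.Results.MP_44c6a0_ag.CongruencesSuffice

open Pool.Agent.U152.FS

universe u v

/-- **Theorem.** -/
theorem result (r : ℕ) (hr : r.Prime) (T : FrobData.{u, v} r) :
    (T.Families ↔ T.Congruences) ∧ (T.Congruences → T.Single) :=
  ⟨FrobData.main hr, fun h => FrobData.single ((FrobData.main hr).2 h)⟩

end Pool.Agent.Results.MP_44c6a0_ag.CongruencesSuffice
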